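import Pool.Agent.H75.GG.Targets2

/-!
# FMP: machines which ignore some strings of the tables
-/

set_option autoImplicit false

namespace Pool.Agent.H60.GG

open Finset Filter Pool.Agent.H6.NB Pool.Agent.H70.OQ Pool.Agent.H75.GS Pool.Agent.H75.GG

open Classical in
/-- the entries of the table in `V` are replaced by `false` -/
noncomputable def sb {n a : ℕ} (V : Set (List Bool)) (y : Cg 1 n a → Bool) : Cg 1 n a → Bool
  | .cst b => y (.cst b)
  | .bas v => if pst n v.1 v.2 ∈ V then false else y (.bas v)
  | .key s => y (.key s)
  | .blk s i v => y (.blk s i v)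

open Classical in
/-- the table with the entries in `V` replaced by `false` -/
noncomputable def tq {n : ℕ} (V : Set (List Bool)) (T : Nn n 1 → Bool) (v : Nn n 1) : Bool :=
  if pst n v.1 v.2 ∈ V then false else T v

open Classical in
/-- the substitution is given by trees of depth at most one -/
theorem fm_sb {n a : ℕ} (S : ℕ) (V : Set (List Bool)) (c : Cg 1 n a) :
    Fm S 1 0 fun y : Cg 1 n a → Bool => sb V y c := by
  have hv : ∀ c : Cg 1 n a, Fm S 1 0 fun y : Cg 1 n a → Bool => y c := by
    intro c
    refine ⟨.node c (.leaf false) (.leaf true), le_of_eq rfl, fun y => ?_⟩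
    show cond (y c) true false = y c
    cases y c <;> rfl
  cases c with
  | cst b => exact hv (.cst b)
  | bas v =>
    by_cases h : pst n v.1 v.2 ∈ V
    · refine ⟨.leaf false, Nat.zero_le _, fun y => ?_⟩
      show false = if pst n v.1 v.2 ∈ V then false else y (.bas v)
      rw [if_pos h]
    · have h1 : (fun y : Cg 1 n a → Bool => sb V y (.bas v)) = fun y => y (.bas v) := by
        funext y
        show (if pst n v.1 v.2 ∈ V then false else y (.bas v)) = _
        rw [if_neg h]
      rw [h1]
      exact hv (.bas v)
  | key s => exact hv (.key s)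
  | blk s i v => exact hv (.blk s i v)

open Classical in
theorem pf_FMP (hFMS : T_FMS) (hCLH : T_CLH) (_hNST : T_NST) : T_FMP := by
  intro acc U hU
  constructor
  · intro hA s O O' hO
    refine hA s _ _ fun w hw => ?_
    show (if w ∈ U s.length then false else O w) = if w ∈ U s.length then false else O' w
    rw [hO w hw]
  · intro n a t K _ _ hF o
    choose D hD hD2 using fun l => hF (mks (U l) o)
    have htrue : ∀ (l : ℕ) (w : List Bool), (true :: w) ∉ U l := by
      intro l w hw
      obtain ⟨m, x, z, h⟩ := hU l _ hw
      have h2 : (true : Bool) = false := (List.cons.inj h).1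
      exact Bool.noConfusion h2
    -- the values of the oracle
    have hval : ∀ (l : ℕ) (T : Nn n 1 → Bool) (e : Om n (2 ^ a) → Bool)
        (P : Blk (fun s : Om n (2 ^ a) => ns s.1) fun s => qs s.1) (w : List Bool),
        vlG (tq (U l) T) e P
          (clg 1 n (2 ^ a) (mks (U l) o) w) =
          mks (U l) (fun w => vlG T e P (clg 1 n (2 ^ a) o w)) w := by
      intro l T e P w
      obtain ⟨a1, a2, a3, a4⟩ := hCLH 1 n (2 ^ a) o
      obtain ⟨b1, b2, b3, b4⟩ := hCLH 1 n (2 ^ a) (mks (U l) o)
      have c1 : (∃ p : Nn n 1, w = false :: nstr n 1 p) →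
          vlG (tq (U l) T) e P
            (clg 1 n (2 ^ a) (mks (U l) o) w) =
          mks (U l) (fun w => vlG T e P (clg 1 n (2 ^ a) o w)) w := by
        rintro ⟨p, rfl⟩
        rw [b1]
        show _ = if false :: nstr n 1 p ∈ U l then false else
          vlG T e P (clg 1 n (2 ^ a) o (false :: nstr n 1 p))
        rw [a1]
        rfl
      have c2 : (∃ s : Om n (2 ^ a), w = key s.1) →
          vlG (tq (U l) T) e P
            (clg 1 n (2 ^ a) (mks (U l) o) w) =
          mks (U l) (fun w => vlG T e P (clg 1 n (2 ^ a) o w)) w := by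
        rintro ⟨s, rfl⟩
        rw [b2]
        have hk : key s.1 ∉ U l := htrue l _
        show _ = if key s.1 ∈ U l then false else vlG T e P (clg 1 n (2 ^ a) o (key s.1))
        rw [if_neg hk, a2]
        rfl
      have c3 : (∃ (s : Om n (2 ^ a)) (i : Fin (ns s.1)) (v : VV (qs s.1)),
          w = blk s.1 i v.1 (List.ofFn v.2)) →
          vlG (tq (U l) T) e P
            (clg 1 n (2 ^ a) (mks (U l) o) w) =
          mks (U l) (fun w => vlG T e P (clg 1 n (2 ^ a) o w)) w := by
        rintro ⟨s, i, v, rfl⟩
        rw [b3]
        have hk : blk s.1 i v.1 (List.ofFn v.2) ∉ U l := htrue l _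
        show _ = if blk s.1 i v.1 (List.ofFn v.2) ∈ U l then false else
          vlG T e P (clg 1 n (2 ^ a) o (blk s.1 i v.1 (List.ofFn v.2)))
        rw [if_neg hk, a3]
        rfl
      rcases a4 w with h | h | h | h
      · exact c1 h
      · exact c2 h
      · exact c3 h
      · rcases b4 w with h' | h' | h' | h'
        · exact c1 h'
        · exact c2 h'
        · exact c3 h'
        · rw [h']
          show mks (U l) o w = if w ∈ U l then false else vlG T e P (clg 1 n (2 ^ a) o w)
          rw [h]
          rfl
    have hsb : ∀ (l : ℕ) (T : Nn n 1 → Bool) (e : Om n (2 ^ a) → Bool)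
        (P : Blk (fun s : Om n (2 ^ a) => ns s.1) fun s => qs s.1),
        sb (U l) (vlG T e P) =
          vlG (tq (U l) T) e P := by
      intro l T e P
      funext c
      cases c <;> rfl
    refine ⟨fun s y => D s.1.length s (sb (U s.1.length) y), ⟨?_, ?_, ?_⟩, ?_⟩
    · intro s
      have h1 := hFMS (Cg 1 n (2 ^ a)) (Cg 1 n (2 ^ a)) (2 ^ t) t 1 K (D s.1.length s)
        (fun c y => sb (U s.1.length) y c) (fun c => fm_sb _ _ c) ((hD s.1.length).fm s)
      rw [mul_one] at h1
      exact h1
    · intro s y y' hy
      refine (hD s.1.length).low s _ _ fun c hc => ?_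
      have h1 := hy c hc
      cases c with
      | cst b => exact h1
      | bas v =>
        show (if pst n v.1 v.2 ∈ U s.1.length then false else y (.bas v)) =
          if pst n v.1 v.2 ∈ U s.1.length then false else y' (.bas v)
        rw [h1]
      | key s => exact h1
      | blk s i v => exact h1
    · intro s
      exact (hD s.1.length).lt s
    · intro s T e P
      have h1 := hD2 s.1.length s
        (tq (U s.1.length) T) e P
      have h2 : (fun w => vlG (tq (U s.1.length) T)
          e P (clg 1 n (2 ^ a) (mks (U s.1.length) o) w)) =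
          mks (U s.1.length) (fun w => vlG T e P (clg 1 n (2 ^ a) o w)) :=
        funext fun w => hval s.1.length T e P w
      rw [h2] at h1
      show acc s.1 (mks (U s.1.length) (fun w => vlG T e P (clg 1 n (2 ^ a) o w))) ↔
        D s.1.length s (sb (U s.1.length) (vlG T e P)) = true
      rw [hsb]
      exact h1

end Pool.Agent.H60.GG
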