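import Pool.Agent.H75.GG.Targets2

/-!
# LO2: summation over the configurations without the special rows
-/

set_option autoImplicit false

namespace Pool.Agent.H60.GG

open Finset Filter Pool.Agent.H6.NB Pool.Agent.H70.OQ Pool.Agent.H75.GS Pool.Agent.H75.GG

/-- the sum over all functions of a function which ignores the values on `S` -/
theorem sum_off {X : Type} [Fintype X] [DecidableEq X] (S : Finset X) (F : (X → Bool) → ℝ) :
    ∑ b : X → Bool, F (fun x => if x ∈ S then false else b x) =
      2 ^ S.card * ∑ b ∈ univ.filter (fun b : X → Bool => ∀ x ∈ S, b x = false), F b := by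
  rw [← sum_fiberwise_of_maps_to (s := univ)
    (t := univ.filter (fun b : X → Bool => ∀ x ∈ S, b x = false))
    (g := fun (b : X → Bool) x => if x ∈ S then false else b x)]
  · rw [mul_sum]
    refine sum_congr rfl fun c hc => ?_
    rw [mem_filter] at hc
    have h1 : ∀ b ∈ univ.filter (fun b : X → Bool =>
        (fun x => if x ∈ S then false else b x) = c),
        F (fun x => if x ∈ S then false else b x) = F c := by
      intro b hb
      rw [(mem_filter.1 hb).2]
    rw [sum_congr rfl h1, sum_const, nsmul_eq_mul]
    congr 1
    have h2 : univ.filter (fun b : X → Bool => (fun x => if x ∈ S then false else b x) = c) =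
        Fintype.piFinset (fun x => if x ∈ S then (univ : Finset Bool) else {c x}) := by
      ext b
      rw [mem_filter, Fintype.mem_piFinset]
      constructor
      · rintro ⟨-, h⟩ x
        split_ifs with hx
        · exact mem_univ _
        · rw [mem_singleton, ← h]
          show b x = if x ∈ S then false else b x
          rw [if_neg hx]
      · intro h
        refine ⟨mem_univ _, funext fun x => ?_⟩
        by_cases hx : x ∈ S
        · rw [if_pos hx, hc.2 x hx]
        · have h4 := h x
          rw [if_neg hx, mem_singleton] at h4
          rw [if_neg hx, h4]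
    have h3 : ∀ x : X, (if x ∈ S then (univ : Finset Bool) else {c x}).card =
        if x ∈ S then 2 else 1 := by
      intro x
      split_ifs
      · rw [card_univ, Fintype.card_bool]
      · rw [card_singleton]
    rw [h2, Fintype.card_piFinset, prod_congr rfl (fun x _ => h3 x), prod_ite, prod_const,
      prod_const_one, mul_one, filter_mem_eq_inter, univ_inter]
    push_cast
    rfl
  · intro b _
    rw [mem_filter]
    refine ⟨mem_univ _, fun x hx => ?_⟩
    show (if x ∈ S then false else b x) = false
    rw [if_pos hx]

theorem pf_LO2 : T_LO2 := by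
  intro G n φ
  have hlab : ∀ (y : Spc G n) (k : Fin (G.r n)), G.lab n (row y k) = k := fun y k => (y k).1.2
  have hinj : ∀ y : Spc G n, Function.Injective (row y) := by
    intro y k k' h
    rw [← hlab y k, h, hlab y k']
  have hrm : ∀ (y : Spc G n) (p : Wn n), rm y p =
      (p.1, fun x => if x ∈ univ.image (row y) then false else p.2 x) := by
    intro y p
    refine Prod.ext rfl (funext fun x => ?_)
    show (if x = row y (G.lab n x) then false else p.2 x) = _
    refine if_congr ?_ rfl rfl
    rw [mem_image]
    constructor
    · intro h
      exact ⟨_, mem_univ _, h.symm⟩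
    · rintro ⟨k, -, rfl⟩
      rw [hlab]
  have hcond : ∀ (y : Spc G n) (b : Xn n → Bool), (∀ k, b (row y k) = false) ↔
      ∀ x ∈ univ.image (row y), b x = false := by
    intro y b
    constructor
    · intro h x hx
      obtain ⟨k, -, rfl⟩ := mem_image.1 hx
      exact h k
    · intro h k
      exact h _ (mem_image_of_mem _ (mem_univ k))
  have hmain : ∀ y : Spc G n, ∑ p : Wn n, φ (rm y p) y =
      2 ^ G.r n * ∑ p : Wn n, if (∀ k, p.2 (row y k) = false) then φ p y else 0 := by
    intro y
    have h1 : ∀ p : Wn n, φ (rm y p) y =
        φ (p.1, fun x => if x ∈ univ.image (row y) then false else p.2 x) y := fun p => by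
      rw [hrm]
    rw [sum_congr rfl fun p _ => h1 p, Fintype.sum_prod_type, Fintype.sum_prod_type, mul_sum]
    refine sum_congr rfl fun h _ => ?_
    have h2 := sum_off (univ.image (row y)) fun b => φ (h, b) y
    rw [card_image_of_injective _ (hinj y), card_univ, Fintype.card_fin, sum_filter] at h2
    show ∑ b : Xn n → Bool, φ (h, fun x => if x ∈ univ.image (row y) then false else b x) y = _
    rw [h2]
    congr 1
    refine sum_congr rfl fun b _ => ?_
    exact if_congr (hcond y b).symm rfl rfl
  rw [sum_comm, sum_congr rfl fun y _ => hmain y, ← mul_sum]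
  congr 1
  rw [sum_comm]
  refine sum_congr rfl fun p _ => ?_
  rw [sum_filter]

end Pool.Agent.H60.GG
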