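import Pool.Agent.H64.GG.TC

/-! Row MAING of board rgd (MP_c65535_nt): the result. -/

set_option autoImplicit false

namespace Pool.Agent.H60.GG

open NumberField Height Finset Polynomial Pool.Agent.H24.RD Pool.Agent.H23.RDD Pool.Agent.H29.RQ
  Pool.Agent.H29.SX Pool.Agent.H29.LG Pool.Agent.H64.GG

private theorem cj_min (M : IntermediateField ℚ Om) (β : Om) (hint : IsIntegral M β) :
    Cj ℚ Om M (Module.finrank M (IntermediateField.adjoin M {β})) β := by
  classical
  have hfin : Module.finrank M (IntermediateField.adjoin M {β}) = (minpoly M β).natDegree :=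
    IntermediateField.adjoin.finrank hint
  refine ⟨((minpoly M β).aroots Om).toFinset, ?_, ?_⟩
  · rw [hfin]
    exact (Multiset.toFinset_card_le _).trans ((Polynomial.card_roots' _).trans
        (Polynomial.natDegree_map_le))
  · intro σ hσ
    rw [Multiset.mem_toFinset, Polynomial.mem_aroots]
    refine ⟨minpoly.ne_zero hint, ?_⟩
    have h1 : aeval (σ β) (minpoly M β) = σ (aeval β (minpoly M β)) := by
      rw [aeval_eq_sum_range, aeval_eq_sum_range, map_sum]
      refine Finset.sum_congr rfl fun n _ => ?_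
      rw [Algebra.smul_def, Algebra.smul_def, map_mul, map_pow]
      have h2 : algebraMap M Om ((minpoly M β).coeff n) =
          (((minpoly M β).coeff n : M) : Om) := rfl
      rw [h2, hσ _ ((minpoly M β).coeff n).2]
    rw [h1, minpoly.aeval, map_zero]

theorem pf_MAING (hLVN : T_LVN) (_hHB : Pool.Agent.H24.RD.T_HB) : T_MAING := by
  intro r a ha0 ha
  obtain ⟨c, C, hc, h⟩ := hLVN r a ⟨ha0, ha⟩
  refine ⟨c, C, hc, ?_⟩
  intro m N hm hN hmN hNN hunit hwief θ hθ M hM β γ hγ hβγ hnot
  have : Algebra.IsAlgebraic ℚ Om := AlgebraicClosure.isAlgebraic ℚ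
  have : Algebra.IsAlgebraic M Om := Algebra.IsAlgebraic.tower_top (K := ℚ) M
  have hint : IsIntegral M β := (Algebra.IsAlgebraic.isAlgebraic β).isIntegral
  have hMG : M = GF θ m := hM
  have hβ0 : β ≠ 0 := left_ne_zero_of_mul hβγ
  have hγ0 : γ ≠ 0 := right_ne_zero_of_mul hβγ
  have hd : 0 < Module.finrank M (IntermediateField.adjoin M {β}) := by
    rw [IntermediateField.adjoin.finrank hint]
    exact minpoly.natDegree_pos hint
  have hCj := cj_min M β hint
  rw [show Cj ℚ Om M = Cj ℚ Om (GF θ m) by rw [hMG]] at hCj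
  exact h N ⟨ha0, hN, hNN, hunit, hwief⟩ θ hθ m _ β γ hm hd hmN hβ0 hCj ⟨hγ0, hγ⟩
    fun hD => hnot hD.2

end Pool.Agent.H60.GG
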