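import Pool.Agent.H64.GG.TC

/-! Row NRV of board rgd (MP_c65535_nt): the norm of a translate, with weights. -/

set_option autoImplicit false

namespace Pool.Agent.H60.GG

open NumberField Height Finset Polynomial Pool.Agent.H24.RD Pool.Agent.H23.RDD Pool.Agent.H29.RQ
  Pool.Agent.H29.SX Pool.Agent.H29.LG Pool.Agent.H64.GG

lemma nrmV_nonneg {r : ℕ} {lam : ℝ} {H ξ : Fin r → ℝ} (hl : 0 < lam) (hH : ∀ i, 0 < H i)
    (a : Fin (r + 1) → ℤ) : 0 ≤ nrmV r lam H ξ a := by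
  unfold nrmV
  have h1 : 0 ≤ ∑ i, H i * |(a i.succ : ℝ) - a 0 * ξ i| :=
    sum_nonneg fun i _ => mul_nonneg (hH i).le (abs_nonneg _)
  have h2 : 0 ≤ |(a 0 : ℝ)| * lam := by positivity
  linarith

lemma nrmV_bd {r : ℕ} {lam : ℝ} {H ξ : Fin r → ℝ} (hl : 0 < lam) (hH : ∀ i, 0 < H i) {ρ : ℝ}
    (a : Fin (r + 1) → ℤ) (ha : nrmV r lam H ξ a ≤ ρ) : |(a 0 : ℝ)| ≤ ρ / lam ∧
    ∀ i, |(a i.succ : ℝ) - a 0 * ξ i| ≤ ρ / H i := by
  unfold nrmV at ha
  have hs : ∀ i, 0 ≤ H i * |(a i.succ : ℝ) - a 0 * ξ i| := fun i =>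
    mul_nonneg (hH i).le (abs_nonneg _)
  have hs' : 0 ≤ ∑ i, H i * |(a i.succ : ℝ) - a 0 * ξ i| := sum_nonneg fun i _ => hs i
  refine ⟨?_, fun i => ?_⟩
  · rw [le_div_iff₀ hl]
    linarith
  · rw [le_div_iff₀ (hH i)]
    have h3 : H i * |(a i.succ : ℝ) - a 0 * ξ i| ≤ ∑ i, H i * |(a i.succ : ℝ) - a 0 * ξ i| :=
      single_le_sum (f := fun i => H i * |(a i.succ : ℝ) - a 0 * ξ i|) (fun j _ => hs j)
        (mem_univ i)
    have h5 : 0 ≤ |(a 0 : ℝ)| * lam := by positivity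
    linarith

theorem pf_NRV : T_NRV := by
  intro r lam H ξ hl hH
  refine ⟨⟨?_, ?_, ?_, ?_⟩, fun ρ b hb => nrmV_bd hl hH b hb⟩
  · intro a
    unfold nrmV
    have h1 : |(((-a) 0 : ℤ) : ℝ)| = |(a 0 : ℝ)| := by
      rw [Pi.neg_apply, Int.cast_neg, abs_neg]
    have h2 : ∀ i : Fin r, H i * |(((-a) i.succ : ℤ) : ℝ) - ((-a) 0 : ℤ) * ξ i| =
        H i * |(a i.succ : ℝ) - a 0 * ξ i| := by
      intro i
      rw [Pi.neg_apply, Pi.neg_apply, Int.cast_neg, Int.cast_neg, ← abs_neg]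
      congr 2
      ring
    rw [h1, sum_congr rfl fun i _ => h2 i]
  · intro a b
    unfold nrmV
    have h1 : |(((a + b) 0 : ℤ) : ℝ)| ≤ |(a 0 : ℝ)| + |(b 0 : ℝ)| := by
      rw [Pi.add_apply, Int.cast_add]; exact abs_add_le _ _
    have h2 : ∀ i : Fin r, H i * |(((a + b) i.succ : ℤ) : ℝ) - ((a + b) 0 : ℤ) * ξ i| ≤
        H i * |(a i.succ : ℝ) - a 0 * ξ i| + H i * |(b i.succ : ℝ) - b 0 * ξ i| := by
      intro i
      have : (((a + b) i.succ : ℤ) : ℝ) - ((a + b) 0 : ℤ) * ξ i =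
          ((a i.succ : ℝ) - a 0 * ξ i) + ((b i.succ : ℝ) - b 0 * ξ i) := by
        rw [Pi.add_apply, Pi.add_apply, Int.cast_add, Int.cast_add]; ring
      rw [this, ← mul_add]
      exact mul_le_mul_of_nonneg_left (abs_add_le _ _) (hH i).le
    have h3 := sum_le_sum fun i (_ : i ∈ univ) => h2 i
    rw [sum_add_distrib] at h3
    have h4 := mul_le_mul_of_nonneg_right h1 hl.le
    linarith
  · intro q a
    unfold nrmV
    have h1 : |(((q • a) 0 : ℤ) : ℝ)| = q * |(a 0 : ℝ)| := by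
      rw [Pi.smul_apply, nsmul_eq_mul, Int.cast_mul, abs_mul]
      simp
    have h2 : ∀ i : Fin r, H i * |(((q • a) i.succ : ℤ) : ℝ) - ((q • a) 0 : ℤ) * ξ i| =
        q * (H i * |(a i.succ : ℝ) - a 0 * ξ i|) := by
      intro i
      have : (((q • a) i.succ : ℤ) : ℝ) - ((q • a) 0 : ℤ) * ξ i =
          (q : ℝ) * ((a i.succ : ℝ) - a 0 * ξ i) := by
        rw [Pi.smul_apply, Pi.smul_apply, nsmul_eq_mul, nsmul_eq_mul]
        push_cast
        ring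
      rw [this, abs_mul, abs_of_nonneg (Nat.cast_nonneg q)]
      ring
    rw [h1, sum_congr rfl fun i _ => h2 i, ← mul_sum]
    ring
  · intro ρ
    obtain ⟨Z, hZ⟩ : ∃ Z : Fin (r + 1) → ℝ, Z = Fin.cons (α := fun _ => ℝ) (ρ / lam)
      (fun i => ρ / H i + ρ / lam * |ξ i|) := ⟨_, rfl⟩
    apply Set.Finite.subset (Set.Finite.pi' (fun l : Fin (r + 1) => Set.finite_Icc (-⌈Z l⌉) ⌈Z l⌉))
    intro a ha l
    obtain ⟨b1, b2⟩ := nrmV_bd hl hH a ha
    have h1 : |(a l : ℝ)| ≤ Z l := by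
      rw [hZ]
      refine Fin.cases ?_ (fun i => ?_) l
      · rw [Fin.cons_zero]
        exact b1
      · rw [Fin.cons_succ]
        have h8 : |(a 0 : ℝ) * ξ i| ≤ ρ / lam * |ξ i| := by
          rw [abs_mul]
          exact mul_le_mul_of_nonneg_right b1 (abs_nonneg _)
        have h9 : |(a i.succ : ℝ)| ≤ |(a i.succ : ℝ) - a 0 * ξ i| + |(a 0 : ℝ) * ξ i| := by
          have := abs_add_le ((a i.succ : ℝ) - a 0 * ξ i) ((a 0 : ℝ) * ξ i)
          simpa using this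
        linarith [b2 i]
    have h2 : (a l : ℝ) ≤ ⌈Z l⌉ := ((le_abs_self _).trans h1).trans (Int.le_ceil _)
    have h3 : -(⌈Z l⌉ : ℝ) ≤ a l := by
      have := (neg_abs_le (a l : ℝ))
      have h4 := Int.le_ceil (Z l)
      linarith
    constructor
    · have h5 : ((-⌈Z l⌉ : ℤ) : ℝ) ≤ a l := by push_cast; exact h3
      exact_mod_cast h5
    · exact_mod_cast h2

end Pool.Agent.H60.GG
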