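import Pool.Agent.H64.GG.TC

/-! Row PIL of board rgd (MP_c65535_nt): integrality at the places above a prime. -/

set_option autoImplicit false

namespace Pool.Agent.H60.GG

open NumberField Height Finset Polynomial Pool.Agent.H24.RD Pool.Agent.H23.RDD Pool.Agent.H29.RQ
  Pool.Agent.H29.SX Pool.Agent.H29.LG Pool.Agent.H64.GG IsDedekindDomain HeightOneSpectrum

private theorem abv_eq {M : Type} [Field M] [NumberField M] (P : HeightOneSpectrum (𝓞 M)) (x : M) :
    (FinitePlace.mk P).1 x =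
      WithZeroMulInt.toNNReal (HeightOneSpectrum.absNorm_ne_zero P) (P.valuation M x) :=
  FinitePlace.norm_embedding' P x

private theorem val_le {M : Type} [Field M] [NumberField M] (P : HeightOneSpectrum (𝓞 M)) (x : M)
    (h : (FinitePlace.mk P).1 x ≤ 1) : P.valuation M x ≤ 1 := by
  rw [abv_eq] at h
  have h1 : (1 : NNReal) < (Ideal.absNorm P.asIdeal : NNReal) := by
    exact_mod_cast HeightOneSpectrum.one_lt_absNorm P
  have h2 : WithZeroMulInt.toNNReal (HeightOneSpectrum.absNorm_ne_zero P) (P.valuation M x) ≤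
      WithZeroMulInt.toNNReal (HeightOneSpectrum.absNorm_ne_zero P) 1 := by
    rw [map_one]
    exact_mod_cast h
  exact (WithZeroMulInt.toNNReal_strictMono h1).le_iff_le.1 h2

/-- integral elements have absolute values at most one -/
private theorem int_le {M : Type} [Field M] [NumberField M] (P : HeightOneSpectrum (𝓞 M)) (x : M)
    (h : IsIntegral ℤ x) : (FinitePlace.mk P).1 x ≤ 1 :=
  FinitePlace.norm_le_one M P (⟨x, h⟩ : 𝓞 M)

private theorem nat_le {M : Type} [Field M] [NumberField M] (P : HeightOneSpectrum (𝓞 M)) (n : ℕ) :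
    (FinitePlace.mk P).1 (n : M) ≤ 1 :=
  int_le P _ (by
    have h := isIntegral_algebraMap (R := ℤ) (A := M) (x := (n : ℤ))
    simpa using h)

private theorem cop {M : Type} [Field M] [NumberField M] (P : HeightOneSpectrum (𝓞 M)) (p k : ℕ)
    (hp : p.Prime) (hk : ¬ p ∣ k) (hv : (FinitePlace.mk P).1 (p : M) < 1) :
    (FinitePlace.mk P).1 (k : M) = 1 := by
  refine le_antisymm (nat_le P k) ?_
  by_contra hlt
  rw [not_le] at hlt
  have hmem : ∀ n : ℕ, (FinitePlace.mk P).1 (n : M) < 1 → (n : 𝓞 M) ∈ P.asIdeal := by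
    intro n hn
    refine (FinitePlace.norm_lt_one_iff_mem M P (n : 𝓞 M)).1 ?_
    have e : algebraMap (𝓞 M) M (n : 𝓞 M) = (n : M) := map_natCast _ _
    rw [e]
    exact hn
  have h1 := hmem p hv
  have h2 := hmem k hlt
  have h3 : IsCoprime (p : ℤ) (k : ℤ) :=
    Nat.isCoprime_iff_coprime.2 ((Nat.Prime.coprime_iff_not_dvd hp).2 hk)
  obtain ⟨a, b, hab⟩ := h3
  have h4 : (1 : 𝓞 M) = (a : 𝓞 M) * (p : 𝓞 M) + (b : 𝓞 M) * (k : 𝓞 M) := by
    have := congrArg (fun t : ℤ => (t : 𝓞 M)) hab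
    push_cast at this
    exact this.symm
  have h5 : (1 : 𝓞 M) ∈ P.asIdeal := by
    rw [h4]
    exact P.asIdeal.add_mem (P.asIdeal.mul_mem_left _ h1) (P.asIdeal.mul_mem_left _ h2)
  exact P.isPrime.ne_top ((Ideal.eq_top_iff_one _).2 h5)

theorem pf_PIL : T_PIL := by
  intro M _ _ p hp z
  constructor
  · intro h
    obtain ⟨n, hn0, hn⟩ : ∃ n : ℕ, n ≠ 0 ∧ IsIntegral ℤ ((n : M) * z) := by
      have h1 : IsAlgebraic ℤ z :=
        (IsFractionRing.isAlgebraic_iff ℤ ℚ M).2 (Algebra.IsAlgebraic.isAlgebraic z)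
      obtain ⟨y, hy0, hy⟩ := h1.exists_integral_multiple
      refine ⟨y.natAbs, Int.natAbs_ne_zero.2 hy0, ?_⟩
      rw [zsmul_eq_mul] at hy
      rcases Int.natAbs_eq y with h2 | h2
      · rw [h2] at hy
        simpa using hy
      · rw [h2] at hy
        have h3 := hy.neg
        simpa using h3
    obtain ⟨e, k, hk, hek⟩ := Nat.exists_eq_pow_mul_and_not_dvd hn0 p hp.ne_one
    refine ⟨k, hk, ?_⟩
    have h1 : (k : M) * z ∈ (algebraMap (𝓞 M) M).range := by
      refine mem_integers_of_valuation_le_one M _ fun P => val_le P _ ?_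
      by_cases hv : (FinitePlace.mk P).1 (p : M) < 1
      · rw [map_mul]
        exact mul_le_one₀ (nat_le P k) (AbsoluteValue.nonneg _ _) (h _ hv)
      · have hv1 : (FinitePlace.mk P).1 (p : M) = 1 := le_antisymm (nat_le P p) (not_lt.1 hv)
        have h2 := int_le P _ hn
        rw [hek] at h2
        push_cast at h2
        rw [mul_assoc, map_mul, map_pow, hv1, one_pow, one_mul] at h2
        exact h2
    obtain ⟨w, hw⟩ := h1
    rw [← hw]
    exact w.2
  · rintro ⟨k, hk, hkz⟩ v hv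
    obtain ⟨Q, rfl⟩ : ∃ Q : HeightOneSpectrum (𝓞 M), FinitePlace.mk Q = v :=
      ⟨v.maximalIdeal, v.mk_maximalIdeal⟩
    have h1 := int_le Q _ hkz
    rw [map_mul, cop Q p k hp hk hv, one_mul] at h1
    exact h1

end Pool.Agent.H60.GG
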