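import Pool.Agent.H75.GG.Targets

/-!
# SYT: the formulas of two machines
-/

set_option autoImplicit false

namespace Pool.Agent.H60.GG

open Finset Filter Pool.Agent.H6.NB Pool.Agent.H70.OQ Pool.Agent.H75.GS Pool.Agent.H75.GG

/-- a single variable is a formula of depth zero -/
theorem fm_var {V : Type} (S : ℕ) (v : V) : Fm S 1 0 fun y : V → Bool => y v := by
  refine ⟨.node v (.leaf false) (.leaf true), le_of_eq rfl, fun y => ?_⟩
  show cond (y v) true false = y v
  cases y v <;> rfl

theorem pf_SYT (hFMS : T_FMS) : T_SYT := by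
  intro B Ω nn qb D D' lev S t d h hD hD'
  have key : ∀ (E : Ω → (PosG B Ω nn qb → Bool) → Bool), Syg E lev S t d h → ∀ s : Ω,
      Fm S t d fun y : PosG B (Ω ⊕ Ω) (nn2 nn) (qb2 qb) → Bool =>
        E s fun c => y (emb2 c) := by
    intro E hE s
    have h1 := hFMS (PosG B Ω nn qb) (PosG B (Ω ⊕ Ω) (nn2 nn) (qb2 qb)) S t 1 d (E s)
      (fun c y => y (emb2 c)) (fun c => fm_var S (emb2 c)) (hE.fm s)
    rw [mul_one] at h1
    exact h1
  have key2 : ∀ (E : Ω → (PosG B Ω nn qb → Bool) → Bool), Syg E lev S t d h → ∀ s : Ω,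
      ∀ y y' : PosG B (Ω ⊕ Ω) (nn2 nn) (qb2 qb) → Bool,
      (∀ c, LwG (lev2 lev) (lev s) c → y c = y' c) →
        (E s fun c => y (emb2 c)) = E s fun c => y' (emb2 c) := by
    intro E hE s y y' hy
    refine hE.low s _ _ fun c hc => hy _ ?_
    cases c with
    | cst b => trivial
    | bas a => trivial
    | key s' => exact hc
    | blk s' i v => exact hc
  constructor
  · rintro (s | s)
    · exact key D hD s
    · exact key D' hD' s
  · rintro (s | s) y y' hy
    · exact key2 D hD s y y' hy
    · exact key2 D' hD' s y y' hy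
  · rintro (s | s)
    · exact hD.lt s
    · exact hD'.lt s

end Pool.Agent.H60.GG
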