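import Pool.Agent.H64.GG.TC

/-! Row TOR of board rgd (MP_c65535_nt): the points are not roots of unity. -/

set_option autoImplicit false

namespace Pool.Agent.H60.GG

open NumberField Height Finset Polynomial Pool.Agent.H24.RD Pool.Agent.H23.RDD Pool.Agent.H29.RQ
  Pool.Agent.H29.SX Pool.Agent.H29.LG Pool.Agent.H64.GG

/-- an integral power in the group is enough -/
private theorem mem_Dv_of_zpow {F Ω : Type} [Field F] [Field Ω] [Algebra F Ω] {r : ℕ}
    {γ : Fin r → F} {z : Ω} (hz : z ≠ 0) {B : ℤ}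
    (hB : B ≠ 0) {u : Fin r → ℤ} (h : z ^ B = ∏ i, (algebraMap F Ω (γ i)) ^ u i) :
    z ∈ Dv F Ω γ := by
  refine ⟨hz, B.natAbs, Int.natAbs_pos.2 hB, ?_⟩
  rcases Int.natAbs_eq B with h1 | h1
  · refine ⟨u, ?_⟩
    rw [← h, ← zpow_natCast, ← h1]
  · refine ⟨fun i => -u i, ?_⟩
    have h2 : ((B.natAbs : ℕ) : ℤ) = -B := by omega
    rw [← zpow_natCast, h2, zpow_neg, h, ← Finset.prod_inv_distrib]
    exact Finset.prod_congr rfl fun i _ => by rw [zpow_neg]

theorem pf_TOR : T_TOR := by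
  intro r a N θ β g hM hN hθ hβ hg hbg b k hk hpt
  have ha0 : ∀ i, a i ≠ 0 := hM.1
  have ha : ∀ i, algebraMap ℚ Om (a i) ≠ 0 := fun i => by
    rw [Ne, map_eq_zero]
    exact ha0 i
  obtain ⟨n, hn⟩ : ∃ n, n = ∏ i, N i := ⟨_, rfl⟩
  have hn0 : 0 < n := by
    rw [hn]
    exact Finset.prod_pos fun i _ => hN i
  have hdv : ∀ i, ∃ q, 0 < q ∧ n = N i * q := by
    intro i
    obtain ⟨q, hq⟩ : N i ∣ n := by
      rw [hn]
      exact Finset.dvd_prod_of_mem N (Finset.mem_univ i)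
    refine ⟨q, ?_, hq⟩
    rcases Nat.eq_zero_or_pos q with h0 | h0
    · rw [h0, mul_zero] at hq
      omega
    · exact h0
  choose q hq0 hq using hdv
  -- the relation
  have hθn : ∀ i, θ i ^ n = algebraMap ℚ Om (a i) ^ q i := by
    intro i
    rw [hq i, pow_mul, hθ i]
  have hrel : β ^ (b 0 * (k * n : ℕ)) *
      ∏ i, algebraMap ℚ Om (a i) ^ ((q i : ℤ) * (b i.succ * (k : ℤ))) = 1 := by
    have h1 : (pt θ β b ^ k) ^ n = 1 := by rw [hpt, one_pow]
    rw [← pow_mul] at h1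
    unfold pt at h1
    rw [mul_pow, ← Finset.prod_pow] at h1
    rw [← h1]
    congr 1
    · rw [zpow_mul, zpow_natCast]
    · refine Finset.prod_congr rfl fun i _ => ?_
      rw [zpow_mul, zpow_natCast, ← hθn i]
      rw [← zpow_natCast, ← zpow_mul, ← zpow_natCast, ← zpow_mul]
      congr 1
      push_cast
      ring
  by_cases hb : b 0 = 0
  · rw [hb, zero_mul, zpow_zero, one_mul] at hrel
    have h2 : ∏ i, a i ^ ((q i : ℤ) * (b i.succ * (k : ℤ))) = 1 := by
      apply (algebraMap ℚ Om).injective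
      rw [map_prod, map_one, ← hrel]
      exact Finset.prod_congr rfl fun i _ => map_zpow₀ _ _ _
    have h3 := hM.2 _ h2
    funext l
    refine Fin.cases hb (fun i => ?_) l
    have h4 := congrFun h3 i
    simp only [Pi.zero_apply] at h4 ⊢
    rcases mul_eq_zero.1 h4 with h5 | h5
    · exfalso
      have := hq0 i
      omega
    · rcases mul_eq_zero.1 h5 with h6 | h6
      · exact h6
      · exfalso
        omega
  · exfalso
    apply hbg
    obtain ⟨hg0, m, hm, x, hx⟩ := hg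
    have hB : b 0 * (k * n : ℕ) * (m : ℤ) ≠ 0 := by
      have h1 : (0 : ℤ) < (k * n : ℕ) := by exact_mod_cast Nat.mul_pos hk hn0
      have h2 : (0 : ℤ) < m := by exact_mod_cast hm
      exact mul_ne_zero (mul_ne_zero hb h1.ne') h2.ne'
    refine mem_Dv_of_zpow (mul_ne_zero hβ hg0) hB
      (u := fun i => -((q i : ℤ) * (b i.succ * (k : ℤ))) * m + x i * (b 0 * (k * n : ℕ))) ?_
    have e1 : β ^ (b 0 * (k * n : ℕ)) =
        ∏ i, algebraMap ℚ Om (a i) ^ (-((q i : ℤ) * (b i.succ * (k : ℤ)))) := by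
      have h1 := eq_inv_of_mul_eq_one_left hrel
      rw [h1, ← Finset.prod_inv_distrib]
      exact Finset.prod_congr rfl fun i _ => by rw [zpow_neg]
    have e2 : g ^ (b 0 * (k * n : ℕ) * (m : ℤ)) =
        ∏ i, algebraMap ℚ Om (a i) ^ (x i * (b 0 * (k * n : ℕ))) := by
      rw [mul_comm (b 0 * (k * n : ℕ)) (m : ℤ), zpow_mul, zpow_natCast, hx, ← Finset.prod_zpow]
      exact Finset.prod_congr rfl fun i _ => (zpow_mul _ _ _).symm
    have e3 : β ^ (b 0 * (k * n : ℕ) * (m : ℤ)) =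
        ∏ i, algebraMap ℚ Om (a i) ^ (-((q i : ℤ) * (b i.succ * (k : ℤ))) * m) := by
      rw [zpow_mul, e1, ← Finset.prod_zpow]
      exact Finset.prod_congr rfl fun i _ => by rw [zpow_mul _ _ (m : ℤ)]
    rw [mul_zpow, e2, e3, ← Finset.prod_mul_distrib]
    exact Finset.prod_congr rfl fun i _ => by rw [← zpow_add₀ (ha i)]

end Pool.Agent.H60.GG
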